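import Mathlib

set_option autoImplicit false

/-!
# Circuit decompositions of Eulerian binary matroids: long circuits in dense sets
-/

namespace Pool.Agent.H38.CD

open Finset

/-- vectors over the field with two elements -/
abbrev V (n : ℕ) := Fin n → ZMod 2

/-- `C` is a circuit: nonempty, with sum `0`, and no nonempty proper subset has sum `0` -/
def IsCircuit {n : ℕ} (C : Finset (V n)) : Prop :=
  C.Nonempty ∧ ∑ v ∈ C, v = 0 ∧ ∀ D : Finset (V n), D ⊂ C → D.Nonempty → ∑ v ∈ D, v ≠ 0

/-- the rank of `M`: the dimension of its span -/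
noncomputable def rk {n : ℕ} (M : Finset (V n)) : ℕ :=
  Module.finrank (ZMod 2) (Submodule.span (ZMod 2) (M : Set (V n)))

/-- `P` is a circuit decomposition of `M` -/
def IsDecomp {n : ℕ} {M : Finset (V n)} (P : Finpartition M) : Prop := ∀ C ∈ P.parts, IsCircuit C

theorem add_self' {n : ℕ} (v : V n) : v + v = 0 := by
  funext i
  exact CharTwo.add_self_eq_zero (v i)

theorem eq_of_add_eq_zero' {n : ℕ} {v w : V n} (h : v + w = 0) : v = w := by
  have : v = v + (w + w) := by rw [add_self', add_zero]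
  rw [this, ← add_assoc, h, zero_add]

theorem sum_zero_of_decomp {n : ℕ} {M : Finset (V n)} (P : Finpartition M) (hP : IsDecomp P) :
    ∑ v ∈ M, v = 0 := by
  have h1 : ∑ v ∈ P.parts.biUnion id, v = 0 := by
    rw [sum_biUnion (fun C hC D hD h => P.disjoint hC hD h)]
    exact Finset.sum_eq_zero fun C hC => (hP C hC).2.1
  rwa [P.biUnion_parts] at h1

/-- a nonempty set with sum zero which does not contain `0` contains a circuit with at least three
elements -/
theorem short_circuit {n : ℕ} (M : Finset (V n)) (h0 : (0 : V n) ∉ M) (hM : M.Nonempty)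
    (hs : ∑ v ∈ M, v = 0) : ∃ C ⊆ M, IsCircuit C ∧ 3 ≤ C.card := by
  classical
  have hex : ∃ C ∈ M.powerset.filter (fun C => C.Nonempty ∧ ∑ v ∈ C, v = 0), ∀ D ∈
      M.powerset.filter (fun C => C.Nonempty ∧ ∑ v ∈ C, v = 0), C.card ≤ D.card :=
    Finset.exists_min_image _ _ ⟨M, by simp [hM, hs]⟩
  obtain ⟨C, hC, hmin⟩ := hex
  rw [mem_filter, mem_powerset] at hC
  have hcirc : IsCircuit C := by
    refine ⟨hC.2.1, hC.2.2, fun D hD hDn hDs => ?_⟩
    have h1 := hmin D (by
      rw [mem_filter, mem_powerset]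
      exact ⟨hD.1.trans hC.1, hDn, hDs⟩)
    have h2 := Finset.card_lt_card hD
    omega
  refine ⟨C, hC.1, hcirc, ?_⟩
  by_contra h3
  have hpos : 0 < C.card := hC.2.1.card_pos
  have h12 : C.card = 1 ∨ C.card = 2 := by omega
  rcases h12 with h | h
  · obtain ⟨v, rfl⟩ := Finset.card_eq_one.1 h
    have := hC.2.2
    rw [sum_singleton] at this
    exact h0 (hC.1 (by rw [← this]; simp))
  · obtain ⟨v, w, hvw, rfl⟩ := Finset.card_eq_two.1 h
    have := hC.2.2
    rw [sum_pair hvw] at this
    exact hvw (eq_of_add_eq_zero' this)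

section Count

variable {n : ℕ}

/-- tuples from `M` -/
def Tup (ι : Type) [Fintype ι] [DecidableEq ι] (M : Finset (V n)) : Finset (ι → V n) :=
  Fintype.piFinset fun _ => M

theorem mem_Tup {ι : Type} [Fintype ι] [DecidableEq ι] {M : Finset (V n)} {x : ι → V n} :
    x ∈ Tup ι M ↔ ∀ i, x i ∈ M := by
  simp [Tup]

theorem card_Tup {ι : Type} [Fintype ι] [DecidableEq ι] {M : Finset (V n)} :
    (Tup ι M).card = M.card ^ Fintype.card ι := by
  simp [Tup]

/-- many tuples of even length have sum zero -/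
theorem many_zero_sum (W : Submodule (ZMod 2) (V n)) (M : Finset (V n)) (hMW : ∀ v ∈ M, v ∈ W)
    (s : ℕ) :
    M.card ^ (2 * s) ≤ 2 ^ Module.finrank (ZMod 2) W *
      ((Tup (Fin s ⊕ Fin s) M).filter fun x => ∑ i, x i = 0).card := by
  classical
  set WF : Finset (V n) := univ.filter fun v => v ∈ W with hWF
  have hWcard : WF.card = 2 ^ Module.finrank (ZMod 2) W := by
    have h1 : WF.card = Fintype.card W := by
      rw [hWF, Fintype.card_subtype]
    rw [h1, Module.card_eq_pow_finrank (K := ZMod 2) (V := W), ZMod.card]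
  set R : V n → ℕ := fun y => ((Tup (Fin s) M).filter fun a => ∑ i, a i = y).card with hR
  have hsum : ∑ y ∈ WF, R y = M.card ^ s := by
    have h1 : (Tup (Fin s) M).card = ∑ y ∈ WF, ((Tup (Fin s) M).filter fun a => ∑ i, a i = y).card :=
      Finset.card_eq_sum_card_fiberwise (fun a ha => by
        have ha' := mem_Tup.1 (mem_coe.1 ha)
        rw [mem_coe, hWF, mem_filter]
        exact ⟨mem_univ _, W.sum_mem fun i _ => hMW _ (ha' i)⟩)
    rw [← h1, card_Tup, Fintype.card_fin]
  have hpairs : ((Tup (Fin s ⊕ Fin s) M).filter fun x => ∑ i, x i = 0).card = ∑ y ∈ WF, R y ^ 2 := by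
    have h1 : ((Tup (Fin s ⊕ Fin s) M).filter fun x => ∑ i, x i = 0).card
        = ((Tup (Fin s) M ×ˢ Tup (Fin s) M).filter fun p => ∑ i, p.1 i = ∑ i, p.2 i).card := by
      refine Finset.card_nbij' (fun x => (fun i => x (Sum.inl i), fun i => x (Sum.inr i)))
        (fun p => Sum.elim p.1 p.2) ?_ ?_ ?_ ?_
      · intro x hx
        simp only [coe_filter, Set.mem_ofPred_eq, mem_Tup, mem_product] at hx ⊢
        refine ⟨⟨fun i => hx.1 _, fun i => hx.1 _⟩, ?_⟩
        have := hx.2
        rw [Fintype.sum_sum_type] at this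
        exact eq_of_add_eq_zero' this
      · intro p hp
        simp only [coe_filter, Set.mem_ofPred_eq, mem_Tup, mem_product] at hp ⊢
        refine ⟨fun i => ?_, ?_⟩
        · rcases i with i | i
          · exact hp.1.1 i
          · exact hp.1.2 i
        · rw [Fintype.sum_sum_type]
          simp only [Sum.elim_inl, Sum.elim_inr]
          rw [hp.2]
          exact add_self' _
      · intro x _
        funext i
        rcases i with i | i <;> rfl
      · intro p _
        rfl
    rw [h1]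
    have h2 : ((Tup (Fin s) M ×ˢ Tup (Fin s) M).filter fun p => ∑ i, p.1 i = ∑ i, p.2 i).card
        = ∑ y ∈ WF, (((Tup (Fin s) M ×ˢ Tup (Fin s) M).filter
            fun p => ∑ i, p.1 i = ∑ i, p.2 i).filter fun p => ∑ i, p.1 i = y).card :=
      Finset.card_eq_sum_card_fiberwise (fun p hp => by
        rw [mem_coe, mem_filter, mem_product, mem_Tup] at hp
        rw [mem_coe, hWF, mem_filter]
        exact ⟨mem_univ _, W.sum_mem fun i _ => hMW _ (hp.1.1 i)⟩)
    rw [h2]
    refine sum_congr rfl fun y _ => ?_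
    rw [sq, hR]
    simp only
    rw [← card_product]
    congr 1
    ext p
    simp only [mem_filter, mem_product]
    constructor
    · rintro ⟨⟨⟨h3, h4⟩, h5⟩, h6⟩
      exact ⟨⟨h3, h6⟩, ⟨h4, by rw [← h5, h6]⟩⟩
    · rintro ⟨⟨h3, h6⟩, ⟨h4, h7⟩⟩
      exact ⟨⟨⟨h3, h4⟩, by rw [h6, h7]⟩, h6⟩
  have hcs := sq_sum_le_card_mul_sum_sq (s := WF) (f := R)
  rw [hsum, hWcard] at hcs
  rw [hpairs]
  calc M.card ^ (2 * s) = (M.card ^ s) ^ 2 := by rw [← pow_mul, mul_comm]
    _ ≤ _ := hcs

/-- few tuples with sum zero have a proper partial sum equal to zero -/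
theorem few_degenerate {ι : Type} [Fintype ι] [DecidableEq ι] (M : Finset (V n)) (I : Finset ι)
    (hI : I.Nonempty) (hI' : I ≠ univ) :
    ((Tup ι M).filter fun x => ∑ i, x i = 0 ∧ ∑ i ∈ I, x i = 0).card
      ≤ M.card ^ (Fintype.card ι - 2) := by
  classical
  obtain ⟨i0, hi0⟩ := hI
  obtain ⟨j0, hj0⟩ : ∃ j0, j0 ∉ I := by
    by_contra h
    push Not at h
    exact hI' (eq_univ_iff_forall.2 h)
  have hij : i0 ≠ j0 := fun h => hj0 (h ▸ hi0)
  have hcard : Fintype.card {i : ι // i ≠ i0 ∧ i ≠ j0} = Fintype.card ι - 2 := by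
    rw [Fintype.card_subtype]
    have : (univ.filter fun i : ι => i ≠ i0 ∧ i ≠ j0) = (univ.erase i0).erase j0 := by
      ext i
      simp only [mem_filter, mem_univ, true_and, mem_erase, and_true]
      tauto
    rw [this, card_erase_of_mem, card_erase_of_mem (mem_univ _), card_univ]
    · omega
    · rw [mem_erase]
      exact ⟨hij.symm, mem_univ _⟩
  rw [← hcard, ← card_Tup (ι := {i : ι // i ≠ i0 ∧ i ≠ j0}) (M := M)]
  refine Finset.card_le_card_of_injOn (fun x i => x i.1) ?_ ?_
  · intro x hx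
    rw [mem_coe, mem_filter, mem_Tup] at hx
    rw [mem_coe, mem_Tup]
    exact fun i => hx.1 _
  · intro x hx y hy hxy
    rw [mem_coe, mem_filter, mem_Tup] at hx hy
    have hoff : ∀ i, i ≠ i0 → i ≠ j0 → x i = y i := fun i h1 h2 => congrFun hxy ⟨i, h1, h2⟩
    have hI0 : x i0 = y i0 := by
      have h1 : ∑ i ∈ I, x i = x i0 + ∑ i ∈ I.erase i0, x i := (add_sum_erase _ _ hi0).symm
      have h2 : ∑ i ∈ I, y i = y i0 + ∑ i ∈ I.erase i0, y i := (add_sum_erase _ _ hi0).symm
      have h3 : ∑ i ∈ I.erase i0, x i = ∑ i ∈ I.erase i0, y i := by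
        refine sum_congr rfl fun i hi => ?_
        rw [mem_erase] at hi
        exact hoff i hi.1 (fun h => hj0 (h ▸ hi.2))
      rw [hx.2.2] at h1
      rw [hy.2.2, ← h3] at h2
      exact add_right_cancel (h1.symm.trans h2)
    have hJ0 : x j0 = y j0 := by
      have h1 : ∑ i, x i = x j0 + ∑ i ∈ univ.erase j0, x i := (add_sum_erase _ _ (mem_univ _)).symm
      have h2 : ∑ i, y i = y j0 + ∑ i ∈ univ.erase j0, y i := (add_sum_erase _ _ (mem_univ _)).symm
      have h3 : ∑ i ∈ univ.erase j0, x i = ∑ i ∈ univ.erase j0, y i := by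
        refine sum_congr rfl fun i hi => ?_
        rw [mem_erase] at hi
        by_cases h : i = i0
        · rw [h]; exact hI0
        · exact hoff i h hi.1
      rw [hx.2.1] at h1
      rw [hy.2.1, ← h3] at h2
      exact add_right_cancel (h1.symm.trans h2)
    funext i
    by_cases h1 : i = i0
    · rw [h1]; exact hI0
    · by_cases h2 : i = j0
      · rw [h2]; exact hJ0
      · exact hoff i h1 h2

/-- dense sets contain long circuits -/
theorem long_circuit (W : Submodule (ZMod 2) (V n)) (M : Finset (V n)) (hMW : ∀ v ∈ M, v ∈ W)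
    (s : ℕ) (hs : 2 ≤ s) (hm : 2 ^ (2 * s + Module.finrank (ZMod 2) W) < M.card ^ 2) :
    ∃ C ⊆ M, IsCircuit C ∧ C.card = 2 * s := by
  classical
  have hmany := many_zero_sum W M hMW s
  set r := Module.finrank (ZMod 2) W with hr
  have hcι : Fintype.card (Fin s ⊕ Fin s) = 2 * s := by
    rw [Fintype.card_sum, Fintype.card_fin]; ring
  -- a zero-sum tuple without proper zero-sum sub-tuple
  have hex : ∃ x ∈ (Tup (Fin s ⊕ Fin s) M).filter (fun x => ∑ i, x i = 0),
      ∀ I : Finset (Fin s ⊕ Fin s), I.Nonempty → I ≠ univ → ∑ i ∈ I, x i ≠ 0 := by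
    by_contra hno
    push Not at hno
    have hsub : (Tup (Fin s ⊕ Fin s) M).filter (fun x => ∑ i, x i = 0)
        ⊆ (univ : Finset (Finset (Fin s ⊕ Fin s))).biUnion fun I =>
          if I.Nonempty ∧ I ≠ univ then
            (Tup (Fin s ⊕ Fin s) M).filter fun x => ∑ i, x i = 0 ∧ ∑ i ∈ I, x i = 0
          else ∅ := by
      intro x hx
      obtain ⟨I, hI1, hI2, hI3⟩ := hno x hx
      rw [mem_biUnion]
      refine ⟨I, mem_univ _, ?_⟩
      rw [if_pos ⟨hI1, hI2⟩, mem_filter]
      rw [mem_filter] at hx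
      exact ⟨hx.1, hx.2, hI3⟩
    have hle : ((Tup (Fin s ⊕ Fin s) M).filter (fun x => ∑ i, x i = 0)).card
        ≤ 2 ^ (2 * s) * M.card ^ (2 * s - 2) := by
      refine le_trans (card_le_card hsub) (le_trans card_biUnion_le ?_)
      have h1 : ∀ I ∈ (univ : Finset (Finset (Fin s ⊕ Fin s))),
          (if I.Nonempty ∧ I ≠ univ then
            (Tup (Fin s ⊕ Fin s) M).filter fun x => ∑ i, x i = 0 ∧ ∑ i ∈ I, x i = 0
          else ∅).card ≤ M.card ^ (2 * s - 2) := by
        intro I _
        split_ifs with h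
        · have := few_degenerate M I h.1 h.2
          rw [hcι] at this
          exact this
        · simp
      refine le_trans (sum_le_sum h1) ?_
      rw [sum_const, card_univ, Fintype.card_finset, hcι, smul_eq_mul]
    have hmpos : 0 < M.card := by
      rcases Nat.eq_zero_or_pos M.card with h | h
      · rw [h] at hm
        simp at hm
      · exact h
    have h2 : M.card ^ (2 * s) ≤ 2 ^ r * (2 ^ (2 * s) * M.card ^ (2 * s - 2)) :=
      le_trans hmany (Nat.mul_le_mul_left _ hle)
    have h3 : M.card ^ (2 * s) = M.card ^ 2 * M.card ^ (2 * s - 2) := by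
      rw [← pow_add]
      congr 1
      omega
    have h4 : 2 ^ r * (2 ^ (2 * s) * M.card ^ (2 * s - 2)) = 2 ^ (2 * s + r) * M.card ^ (2 * s - 2) := by
      rw [pow_add]; ring
    rw [h3, h4] at h2
    have h5 := Nat.le_of_mul_le_mul_right h2 (by positivity)
    omega
  obtain ⟨x, hx, hmin⟩ := hex
  rw [mem_filter, mem_Tup] at hx
  have hinj : Function.Injective x := by
    intro i j hij
    by_contra hne
    refine hmin {i, j} ⟨i, by simp⟩ ?_ ?_
    · intro h
      have h1 : ({i, j} : Finset (Fin s ⊕ Fin s)).card = 2 * s := by rw [h, card_univ, hcι]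
      have h2 := card_le_two (a := i) (b := j)
      omega
    · rw [sum_pair hne, hij]
      exact add_self' _
  refine ⟨univ.image x, ?_, ⟨?_, ?_, ?_⟩, ?_⟩
  · intro v hv
    obtain ⟨i, -, rfl⟩ := mem_image.1 hv
    exact hx.1 i
  · have : (0 : ℕ) < s := by omega
    exact ⟨x (Sum.inl ⟨0, this⟩), mem_image_of_mem _ (mem_univ _)⟩
  · rw [sum_image fun i _ j _ h => hinj h]
    exact hx.2
  · intro D hD hDn
    set I : Finset (Fin s ⊕ Fin s) := univ.filter fun i => x i ∈ D with hI
    have hDI : D = I.image x := by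
      ext v
      constructor
      · intro hv
        obtain ⟨i, -, rfl⟩ := mem_image.1 (hD.1 hv)
        exact mem_image_of_mem _ (mem_filter.2 ⟨mem_univ _, hv⟩)
      · intro hv
        obtain ⟨i, hi, rfl⟩ := mem_image.1 hv
        exact (mem_filter.1 hi).2
    have hne : I.Nonempty := by
      obtain ⟨v, hv⟩ := hDn
      rw [hDI] at hv
      obtain ⟨i, hi, -⟩ := mem_image.1 hv
      exact ⟨i, hi⟩
    have hnu : I ≠ univ := by
      intro h
      rw [h] at hDI
      exact hD.2 (by rw [hDI])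
    have := hmin I hne hnu
    rw [hDI, sum_image fun i _ j _ h => hinj h]
    exact this
  · rw [card_image_of_injective _ hinj, card_univ, hcι]

end Count

end Pool.Agent.H38.CD
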