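import Pool.Agent.H38.CD.Greedy

set_option autoImplicit false

/-!
# The final bound for the greedy decomposition
-/

namespace Pool.Agent.H38.CD

open Finset

theorem cube_le (r : ℕ) (hr : 10 ≤ r) : r ^ 3 ≤ 2 ^ r := by
  induction r, hr using Nat.le_induction with
  | base => norm_num
  | succ r hr ih =>
    rw [pow_succ 2 r]
    nlinarith [sq_nonneg r, mul_le_mul hr hr (by norm_num) (by omega)]

/-- the bound for the number of circuits -/
theorem final_bound {n : ℕ} (M : Finset (V n)) (h0 : (0 : V n) ∉ M) (hs : ∑ v ∈ M, v = 0)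
    (hr : 61 ≤ rk M) :
    ∃ P : Finpartition M, IsDecomp P ∧
      (P.parts.card : ℝ) * (rk M + 1) ≤ M.card + 24 / rk M * 2 ^ rk M - 1 := by
  obtain ⟨P, hP, hb⟩ := main_bound M h0 hs (by omega)
  have hlt := card_lt M h0
  refine ⟨P, hP, ?_⟩
  generalize rk M = r at *
  generalize M.card = m at *
  generalize P.parts.card = p at *
  have hN : (r : ℝ) ^ 3 ≤ 2 ^ r := by exact_mod_cast cube_le r (by omega)
  have hlt' : (m : ℝ) ≤ 2 ^ r := by exact_mod_cast hlt.le
  have hr61 : (61 : ℝ) ≤ r := by exact_mod_cast hr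
  have hp0 : (0 : ℝ) ≤ p := Nat.cast_nonneg p
  have hm0 : (0 : ℝ) ≤ m := Nat.cast_nonneg m
  generalize (m : ℝ) = m at *
  generalize (p : ℝ) = p at *
  generalize hNdef : (2 : ℝ) ^ r = N at *
  have hNpos : 0 < N := by rw [← hNdef]; positivity
  generalize (r : ℝ) = x at *
  have hR : 0 < x - 4 := by linarith
  have h2 : p * (x - 4) ^ 2 ≤ m * (x - 4) + 16 * N := by
    have h3 : (m / (x - 4) + 16 * N / (x - 4) ^ 2) * (x - 4) ^ 2 = m * (x - 4) + 16 * N := by
      field_simp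
    rw [← h3]
    exact mul_le_mul_of_nonneg_right hb (by positivity)
  have hx : 0 < x := by linarith
  have hgoal : p * (x + 1) * ((x - 4) ^ 2 * x) ≤ (m + 24 / x * N - 1) * ((x - 4) ^ 2 * x) := by
    have h4 : (m + 24 / x * N - 1) * ((x - 4) ^ 2 * x)
        = m * ((x - 4) ^ 2 * x) + 24 * N * (x - 4) ^ 2 - (x - 4) ^ 2 * x := by
      field_simp
    rw [h4]
    have h5 : p * (x + 1) * ((x - 4) ^ 2 * x) ≤ (m * (x - 4) + 16 * N) * ((x + 1) * x) := by
      calc p * (x + 1) * ((x - 4) ^ 2 * x) = p * (x - 4) ^ 2 * ((x + 1) * x) := by ring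
        _ ≤ _ := mul_le_mul_of_nonneg_right h2 (by positivity)
    have h6 : (m * (x - 4) + 16 * N) * ((x + 1) * x)
        = m * ((x - 4) ^ 2 * x) + m * (5 * (x - 4) * x) + 16 * N * ((x + 1) * x) := by ring
    have h7 : m * (5 * (x - 4) * x) ≤ N * (5 * (x - 4) * x) :=
      mul_le_mul_of_nonneg_right hlt' (by positivity)
    have h8 : 1 ≤ 3 * x ^ 2 - 188 * x + 384 := by nlinarith
    have h9 : (x - 4) ^ 2 * x ≤ x ^ 3 := by nlinarith
    have h10 : N * 1 ≤ N * (3 * x ^ 2 - 188 * x + 384) := mul_le_mul_of_nonneg_left h8 hNpos.le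
    have h11 : N * (5 * (x - 4) * x) + 16 * N * ((x + 1) * x)
        = 24 * N * (x - 4) ^ 2 - N * (3 * x ^ 2 - 188 * x + 384) := by ring
    linarith
  exact le_of_mul_le_mul_right hgoal (by positivity)

end Pool.Agent.H38.CD
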