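import Pool.Agent.H38.CD.Basic

set_option autoImplicit false

/-!
# Greedy removal of long circuits and the resulting bound
-/

namespace Pool.Agent.H38.CD

open Finset

/-- the length of a circuit which is guaranteed in a set with `u` elements inside a space of
dimension `r` -/
def L (r u : ℕ) : ℕ := max 3 (2 * Nat.log 2 u - r - 2)

theorem L_mono (r : ℕ) {u v : ℕ} (h : u ≤ v) : L r u ≤ L r v := by
  unfold L
  have := Nat.log_mono_right (b := 2) h
  omega

theorem exists_circuit {n : ℕ} (W : Submodule (ZMod 2) (V n)) (M : Finset (V n))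
    (hMW : ∀ v ∈ M, v ∈ W) (h0 : (0 : V n) ∉ M) (hM : M.Nonempty) (hs : ∑ v ∈ M, v = 0) :
    ∃ C ⊆ M, IsCircuit C ∧ L (Module.finrank (ZMod 2) W) M.card ≤ C.card := by
  set r := Module.finrank (ZMod 2) W with hr
  by_cases hbig : 3 ≤ 2 * Nat.log 2 M.card - r - 2
  · obtain ⟨s, hs1, hs2⟩ : ∃ s, 2 * Nat.log 2 M.card - r - 2 ≤ 2 * s ∧
        2 * s ≤ 2 * Nat.log 2 M.card - r - 1 := by
      rcases Nat.even_or_odd (2 * Nat.log 2 M.card - r - 2) with ⟨s, h⟩ | ⟨s, h⟩
      · exact ⟨s, by omega, by omega⟩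
      · exact ⟨s + 1, by omega, by omega⟩
    have hcard : 2 ^ Nat.log 2 M.card ≤ M.card := Nat.pow_log_le_self 2 (by
      have := hM.card_pos
      omega)
    have hlt : 2 ^ (2 * s + r) < M.card ^ 2 := by
      calc 2 ^ (2 * s + r) < 2 ^ (2 * Nat.log 2 M.card) :=
            Nat.pow_lt_pow_right (by norm_num) (by omega)
        _ = (2 ^ Nat.log 2 M.card) ^ 2 := by rw [← pow_mul, mul_comm]
        _ ≤ M.card ^ 2 := Nat.pow_le_pow_left hcard 2
    obtain ⟨C, hC, hCc, hcard2⟩ := long_circuit W M hMW s (by omega) hlt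
    refine ⟨C, hC, hCc, ?_⟩
    rw [hcard2]
    unfold L
    omega
  · obtain ⟨C, hC, hCc, h3⟩ := short_circuit M h0 hM hs
    refine ⟨C, hC, hCc, ?_⟩
    unfold L
    omega

/-- the bound for the number of circuits -/
noncomputable def Phi (r m : ℕ) : ℝ := ∑ u ∈ Icc 1 m, 1 / (L r u : ℝ)

theorem L_pos (r u : ℕ) : (0 : ℝ) < (L r u : ℝ) := by
  have : 0 < L r u := by
    unfold L
    omega
  exact_mod_cast this

theorem Phi_step (r m t : ℕ) (ht : t ≤ m) (hL : L r m ≤ t) : Phi r (m - t) + 1 ≤ Phi r m := by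
  unfold Phi
  have hsplit : ∑ u ∈ Icc 1 m, 1 / (L r u : ℝ)
      = ∑ u ∈ Icc 1 (m - t), 1 / (L r u : ℝ) + ∑ u ∈ Icc (m - t + 1) m, 1 / (L r u : ℝ) := by
    rw [← sum_union]
    · congr 1
      ext u
      simp only [mem_union, mem_Icc]
      omega
    · rw [disjoint_left]
      intro u hu hu'
      rw [mem_Icc] at hu hu'
      omega
  rw [hsplit]
  have hpos := L_pos r m
  have h1 : ∑ _u ∈ Icc (m - t + 1) m, 1 / (L r m : ℝ) ≤ ∑ u ∈ Icc (m - t + 1) m, 1 / (L r u : ℝ) := by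
    refine sum_le_sum fun u hu => ?_
    rw [mem_Icc] at hu
    apply one_div_le_one_div_of_le (L_pos r u)
    exact_mod_cast L_mono r hu.2
  rw [sum_const, Nat.card_Icc, nsmul_eq_mul] at h1
  have h2 : ((m + 1 - (m - t + 1) : ℕ) : ℝ) = t := by
    have : m + 1 - (m - t + 1) = t := by omega
    rw [this]
  rw [h2] at h1
  have h3 : (1 : ℝ) ≤ t * (1 / (L r m : ℝ)) := by
    rw [mul_one_div, le_div_iff₀ hpos, one_mul]
    exact_mod_cast hL
  linarith

/-- greedy decomposition -/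
theorem greedy {n : ℕ} (W : Submodule (ZMod 2) (V n)) (k : ℕ) :
    ∀ M : Finset (V n), M.card = k → (∀ v ∈ M, v ∈ W) → (0 : V n) ∉ M → ∑ v ∈ M, v = 0 →
      ∃ P : Finpartition M, IsDecomp P ∧
        (P.parts.card : ℝ) ≤ Phi (Module.finrank (ZMod 2) W) M.card := by
  induction k using Nat.strong_induction_on with
  | _ k ih =>
    intro M hk hMW h0 hs
    rcases M.eq_empty_or_nonempty with rfl | hM
    · refine ⟨Finpartition.empty _, ?_, ?_⟩
      · intro C hC
        simp at hC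
      · simp [Phi]
    · obtain ⟨C, hCM, hC, hL⟩ := exists_circuit W M hMW h0 hM hs
      have hCpos : 0 < C.card := hC.1.card_pos
      have hcard : (M \ C).card = M.card - C.card := card_sdiff_of_subset hCM
      have hCle : C.card ≤ M.card := card_le_card hCM
      have hsum : ∑ v ∈ M \ C, v = 0 := by
        have := sum_sdiff (f := fun v : V n => v) hCM
        rw [hs, hC.2.1, add_zero] at this
        exact this
      obtain ⟨P, hP, hPc⟩ := ih (M \ C).card (by omega) (M \ C) rfl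
        (fun v hv => hMW v (mem_sdiff.1 hv).1) (fun h => h0 (mem_sdiff.1 h).1) hsum
      have hne : C ≠ ⊥ := by
        rw [bot_eq_empty]
        exact hC.1.ne_empty
      have hdis : Disjoint (M \ C) C := sdiff_disjoint
      have hsup : (M \ C) ⊔ C = M := by
        rw [sup_eq_union]
        exact sdiff_union_of_subset hCM
      refine ⟨P.extend hne hdis hsup, ?_, ?_⟩
      · intro D hD
        change D ∈ insert C P.parts at hD
        rw [mem_insert] at hD
        rcases hD with rfl | hD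
        · exact hC
        · exact hP D hD
      · rw [Finpartition.card_extend]
        push_cast
        have := Phi_step (Module.finrank (ZMod 2) W) M.card C.card hCle hL
        rw [hcard] at hPc
        linarith

/-- comparison of `1 / L` with a convenient bound -/
theorem inv_L_le {r u i : ℕ} (hr : 5 ≤ r) (hi : Nat.log 2 u + 1 + i = r) :
    1 / (L r u : ℝ) ≤ 1 / ((r : ℝ) - 4) + 16 / 3 * (i : ℝ) ^ 2 / ((r : ℝ) - 4) ^ 2 := by
  have hR : (1 : ℝ) ≤ (r : ℝ) - 4 := by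
    have : (5 : ℝ) ≤ r := by exact_mod_cast hr
    linarith
  set R : ℝ := (r : ℝ) - 4 with hRdef
  have hRpos : 0 < R := by linarith
  by_cases h : 4 * i ≤ r - 4
  · have hL : (r - 4 - 2 * i : ℕ) ≤ L r u := by
      unfold L
      omega
    have hir : 4 * (i : ℝ) ≤ R := by
      have h1 : 4 * i + 4 ≤ r := by omega
      have h2 : (4 * i + 4 : ℝ) ≤ r := by exact_mod_cast h1
      rw [hRdef]; linarith
    have hcast : ((r - 4 - 2 * i : ℕ) : ℝ) = R - 2 * i := by
      have h1 : r - 4 - 2 * i + (4 + 2 * i) = r := by omega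
      have h2 : ((r - 4 - 2 * i : ℕ) : ℝ) + (4 + 2 * i) = r := by exact_mod_cast h1
      rw [hRdef]; linarith
    have hLr : R - 2 * i ≤ (L r u : ℝ) := by
      rw [← hcast]
      exact_mod_cast hL
    have hpos : 0 < R - 2 * i := by nlinarith [Nat.cast_nonneg (α := ℝ) i]
    have hi2 : (i : ℝ) ≤ (i : ℝ) ^ 2 := by
      have : i ≤ i ^ 2 := Nat.le_self_pow (by norm_num) i
      exact_mod_cast this
    have hi0 : (0 : ℝ) ≤ i := Nat.cast_nonneg i
    calc 1 / (L r u : ℝ) ≤ 1 / (R - 2 * i) := one_div_le_one_div_of_le hpos hLr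
      _ ≤ 1 / R + 4 * i / R ^ 2 := by
          rw [div_add_div _ _ hRpos.ne' (by positivity), div_le_div_iff₀ hpos (by positivity)]
          nlinarith [mul_nonneg hi0 hRpos.le, mul_nonneg (mul_nonneg hi0 hRpos.le) (sub_nonneg.2 hir)]
      _ ≤ 1 / R + 16 / 3 * (i : ℝ) ^ 2 / R ^ 2 := by
          gcongr
          nlinarith
  · have hL : (3 : ℝ) ≤ (L r u : ℝ) := by
      have : 3 ≤ L r u := by
        unfold L
        omega
      exact_mod_cast this
    have hir : R ≤ 4 * (i : ℝ) := by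
      have h1 : r ≤ 4 * i + 4 := by omega
      have h2 : (r : ℝ) ≤ 4 * i + 4 := by exact_mod_cast h1
      rw [hRdef]; linarith
    calc 1 / (L r u : ℝ) ≤ 1 / 3 := one_div_le_one_div_of_le (by norm_num) hL
      _ ≤ 16 / 3 * (i : ℝ) ^ 2 / R ^ 2 := by
          rw [le_div_iff₀ (by positivity)]
          nlinarith
      _ ≤ _ := by
          have : 0 ≤ 1 / R := by positivity
          linarith

/-- sum over dyadic blocks -/
theorem sum_log (g : ℕ → ℝ) (r : ℕ) :
    ∑ u ∈ Icc 1 (2 ^ r - 1), g (Nat.log 2 u) = ∑ j ∈ range r, 2 ^ j * g j := by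
  induction r with
  | zero => simp
  | succ r ih =>
    have hsplit : Icc 1 (2 ^ (r + 1) - 1) = Icc 1 (2 ^ r - 1) ∪ Icc (2 ^ r) (2 ^ (r + 1) - 1) := by
      ext u
      have h1 : 0 < 2 ^ r := by positivity
      have h2 : 2 ^ (r + 1) = 2 * 2 ^ r := by ring
      simp only [mem_union, mem_Icc]
      omega
    rw [hsplit, sum_union, ih, sum_range_succ]
    · congr 1
      have h1 : ∀ u ∈ Icc (2 ^ r) (2 ^ (r + 1) - 1), g (Nat.log 2 u) = g r := by
        intro u hu
        rw [mem_Icc] at hu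
        have h0 : 0 < 2 ^ (r + 1) := by positivity
        congr 1
        exact Nat.log_eq_of_pow_le_of_lt_pow hu.1 (by omega)
      rw [sum_congr rfl h1, sum_const, Nat.card_Icc, nsmul_eq_mul]
      have h2 : 2 ^ (r + 1) - 1 + 1 - 2 ^ r = 2 ^ r := by
        have h0 : 0 < 2 ^ r := by positivity
        have h2 : 2 ^ (r + 1) = 2 * 2 ^ r := by ring
        omega
      rw [h2]
      push_cast
      ring
    · rw [disjoint_left]
      intro u hu hu'
      rw [mem_Icc] at hu hu'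
      have h0 : 0 < 2 ^ r := by positivity
      omega

theorem sum_sq (r : ℕ) :
    ∑ j ∈ range r, (2 : ℝ) ^ j * ((r : ℝ) - 1 - j) ^ 2 = 3 * 2 ^ r - ((r : ℝ) ^ 2 + 2 * r + 3) := by
  have key : ∀ (r : ℕ) (x : ℝ), ∑ j ∈ range r, (2 : ℝ) ^ j * (x - j) ^ 2
      = 2 ^ r * ((x - r + 2) ^ 2 + 2) - ((x + 2) ^ 2 + 2) := by
    intro r x
    induction r with
    | zero => simp
    | succ r ih =>
      rw [sum_range_succ, ih]
      push_cast
      ring
  rw [key r ((r : ℝ) - 1)]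
  ring

theorem Phi_le {r m : ℕ} (hr : 5 ≤ r) (hm : m < 2 ^ r) :
    Phi r m ≤ m / ((r : ℝ) - 4) + 16 * 2 ^ r / ((r : ℝ) - 4) ^ 2 := by
  have hR : (0 : ℝ) < (r : ℝ) - 4 := by
    have : (5 : ℝ) ≤ r := by exact_mod_cast hr
    linarith
  have hlog : ∀ u ∈ Icc 1 (2 ^ r - 1), Nat.log 2 u + 1 ≤ r := by
    intro u hu
    rw [mem_Icc] at hu
    have h0 : 0 < 2 ^ r := by positivity
    exact Nat.log_lt_of_lt_pow (by omega) (by omega)
  have h1 : Phi r m ≤ ∑ u ∈ Icc 1 m, (1 / ((r : ℝ) - 4) +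
      16 / 3 * ((r : ℝ) - 1 - (Nat.log 2 u : ℝ)) ^ 2 / ((r : ℝ) - 4) ^ 2) := by
    refine sum_le_sum fun u hu => ?_
    rw [mem_Icc] at hu
    have h2 := hlog u (by rw [mem_Icc]; omega)
    have h3 := inv_L_le (r := r) (u := u) (i := r - 1 - Nat.log 2 u) hr (by omega)
    have h4 : ((r - 1 - Nat.log 2 u : ℕ) : ℝ) = (r : ℝ) - 1 - (Nat.log 2 u : ℝ) := by
      have h5 : r - 1 - Nat.log 2 u + (1 + Nat.log 2 u) = r := by omega
      have h6 : ((r - 1 - Nat.log 2 u : ℕ) : ℝ) + (1 + (Nat.log 2 u : ℝ)) = r := by exact_mod_cast h5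
      linarith
    rw [h4] at h3
    exact h3
  have h2 : ∑ u ∈ Icc 1 m, 16 / 3 * ((r : ℝ) - 1 - (Nat.log 2 u : ℝ)) ^ 2 / ((r : ℝ) - 4) ^ 2
      ≤ 16 * 2 ^ r / ((r : ℝ) - 4) ^ 2 := by
    calc ∑ u ∈ Icc 1 m, 16 / 3 * ((r : ℝ) - 1 - (Nat.log 2 u : ℝ)) ^ 2 / ((r : ℝ) - 4) ^ 2
        ≤ ∑ u ∈ Icc 1 (2 ^ r - 1), 16 / 3 * ((r : ℝ) - 1 - (Nat.log 2 u : ℝ)) ^ 2 / ((r : ℝ) - 4) ^ 2 := by
          refine sum_le_sum_of_subset_of_nonneg ?_ (fun u _ _ => by positivity)
          intro u hu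
          rw [mem_Icc] at hu ⊢
          omega
      _ = ∑ j ∈ range r, 2 ^ j * (16 / 3 * ((r : ℝ) - 1 - (j : ℝ)) ^ 2 / ((r : ℝ) - 4) ^ 2) :=
          sum_log (fun j => 16 / 3 * ((r : ℝ) - 1 - (j : ℝ)) ^ 2 / ((r : ℝ) - 4) ^ 2) r
      _ = (16 / 3 * ∑ j ∈ range r, (2 : ℝ) ^ j * ((r : ℝ) - 1 - j) ^ 2) / ((r : ℝ) - 4) ^ 2 := by
          rw [mul_sum, sum_div]
          refine sum_congr rfl fun j _ => ?_
          ring
      _ ≤ 16 * 2 ^ r / ((r : ℝ) - 4) ^ 2 := by
          rw [sum_sq]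
          apply div_le_div_of_nonneg_right _ (by positivity)
          have : (0 : ℝ) ≤ (r : ℝ) ^ 2 + 2 * r + 3 := by positivity
          linarith
  rw [sum_add_distrib, sum_const, Nat.card_Icc, nsmul_eq_mul] at h1
  have h3 : ((m + 1 - 1 : ℕ) : ℝ) = m := by simp
  rw [h3] at h1
  have h4 : (m : ℝ) * (1 / ((r : ℝ) - 4)) = m / ((r : ℝ) - 4) := by ring
  rw [h4] at h1
  linarith

/-- number of nonzero vectors of the span -/
theorem card_lt {n : ℕ} (M : Finset (V n)) (h0 : (0 : V n) ∉ M) : M.card < 2 ^ rk M := by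
  classical
  set W := Submodule.span (ZMod 2) (M : Set (V n)) with hW
  have h1 : (univ.filter fun v : V n => v ∈ W).card = 2 ^ rk M := by
    have h2 : (univ.filter fun v : V n => v ∈ W).card = Fintype.card W := by
      rw [Fintype.card_subtype]
    rw [h2, Module.card_eq_pow_finrank (K := ZMod 2) (V := W), ZMod.card]
    rfl
  rw [← h1]
  apply card_lt_card
  refine ⟨fun v hv => ?_, fun h => h0 (h ?_)⟩
  · rw [mem_filter]
    exact ⟨mem_univ _, Submodule.subset_span hv⟩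
  · rw [mem_filter]
    exact ⟨mem_univ _, W.zero_mem⟩

/-- the general bound -/
theorem main_bound {n : ℕ} (M : Finset (V n)) (h0 : (0 : V n) ∉ M) (hs : ∑ v ∈ M, v = 0)
    (hr : 5 ≤ rk M) : ∃ P : Finpartition M, IsDecomp P ∧
      (P.parts.card : ℝ) ≤ M.card / ((rk M : ℝ) - 4) + 16 * 2 ^ rk M / ((rk M : ℝ) - 4) ^ 2 := by
  obtain ⟨P, hP, hc⟩ := greedy (Submodule.span (ZMod 2) (M : Set (V n))) M.card M rfl
    (fun v hv => Submodule.subset_span hv) h0 hs
  refine ⟨P, hP, le_trans hc ?_⟩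
  exact Phi_le hr (card_lt M h0)

end Pool.Agent.H38.CD
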